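import Pool.Agent.Helper93.IA.StC

/-!
# Module MT3 of project IA: phase three
-/

set_option autoImplicit false

namespace Pool.Agent.Helper40.IAC

open Pool.Agent.Helper93.IA

open Finset

section

variable {α β γ : Type} [DecidableEq α] [DecidableEq β] [DecidableEq γ]

/-- the hypotheses on the remaining edges -/
private theorem rem_of {t : ℝ} {A QA LA I : Finset (α × β)} {C QC LC J : Finset (γ × α)}
    {U1 : Finset α} {U2 : Finset β} {U3 : Finset γ} (hLA : Sm LA t) (hLC : Sm LC t)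
    (hA : PhA t A QA LA I U1 U2) (hC : PhA t C QC LC J U3 U1) :
    Rem t QA LA (oi (A \ I) U1 U2) QC LC (io (C \ J) U3 U1) U1 U2 U3 := by
  refine ⟨hLA, hLC, ?_, ?_, ?_, ?_⟩
  · intro e he
    rw [mem_oi] at he
    rcases hA.cov e he.1 with h | h
    · rw [mem_ins] at h
      exact absurd h.2.1 he.2.1
    · exact h
  · intro e he
    rw [mem_io] at he
    rcases hC.cov e he.1 with h | h
    · rw [mem_ins] at h
      exact absurd h.2.2 he.2.2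
    · exact h
  · intro e he
    rw [mem_oi] at he
    exact he.2
  · intro e he
    rw [mem_io] at he
    exact he.2

private theorem hb_sub {t : ℝ} {A QA LA I : Finset (α × β)} {U1 W1 : Finset α}
    {U2 W2 : Finset β} (hA : PhA t A QA LA I U1 U2) : hb A U1 W1 U2 W2 ⊆ A \ I := by
  intro e he
  rw [mem_hb] at he
  rw [mem_sdiff]
  refine ⟨he.1, fun hI => ?_⟩
  have h1 : e ∈ ins I U1 U2 := by
    rw [mem_ins]
    exact ⟨hI, he.2.1⟩
  rw [hA.inn] at h1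
  exact absurd h1 (notMem_empty e)

private theorem oi_sub (A : Finset (α × β)) (U1 : Finset α) (U2 : Finset β) :
    oi A U1 U2 ⊆ A := by
  intro e he
  rw [mem_oi] at he
  exact he.1

private theorem io_sub (A : Finset (α × β)) (U1 : Finset α) (U2 : Finset β) :
    io A U1 U2 ⊆ A := by
  intro e he
  rw [mem_io] at he
  exact he.1

private theorem dis_oi_io (A A' : Finset (α × β)) (U1 : Finset α) (U2 : Finset β) :
    Disjoint (oi A U1 U2) (io A' U1 U2) := by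
  rw [Finset.disjoint_left]
  intro e he he'
  rw [mem_oi] at he
  rw [mem_io] at he'
  exact he.2.1 he'.2.1

private theorem dis_oi_hb (A A' : Finset (α × β)) (U1 W1 : Finset α) (U2 W2 : Finset β) :
    Disjoint (oi A U1 U2) (hb A' U1 W1 U2 W2) := by
  rw [Finset.disjoint_left]
  intro e he he'
  rw [mem_oi] at he
  rw [mem_hb] at he'
  exact he.2.1 he'.2.1.1

private theorem dis_io_hb (A A' : Finset (α × β)) (U1 W1 : Finset α) (U2 W2 : Finset β) :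
    Disjoint (io A U1 U2) (hb A' U1 W1 U2 W2) := by
  rw [Finset.disjoint_left]
  intro e he he'
  rw [mem_io] at he
  rw [mem_hb] at he'
  exact he.2.2 he'.2.1.2

end

theorem hMT3 : StMT3 := by
  intro hPKB hROT hUN3 hBLA hMAT hMTA hCN1 hCN2 hNM2 hNUM hSTP ξ ρ η g' h1 h2 h3 h4 h5 h6 h7 h8
  obtain ⟨n0, hS⟩ := hSTP hMAT hMTA hCN1 hCN2 hNM2 hNUM ξ ρ η g' h1 h2 h3 h4 h5 h6 h7 h8
  refine ⟨n0, ?_⟩
  intro α β γ _ _ _ _ _ _ κ n m A QA LA B QB LB C QC LC U1 W1 U2 W2 U3 W3 P hκ0 hκ hn hm nα nβ nγ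
    hW1 hW2 hW3 hBal hR1 hR2 hR3 hP hLA hLB hLC hA hB hC
  have hbal := (hPKB α β γ).1 A B C P hP hBal
  -- the three matching steps
  obtain ⟨Pa, pa1, pa2, pa3, pa4⟩ := hS α β γ κ n m A QA LA (oi (A \ P.image eA) U1 U2) B QB C QC LC
    (io (C \ P.image eC) U3 U1) U1 W1 U2 W2 U3 W3 hκ0 hκ hn hm nα nβ nγ hW2 hW3 hR1 hR2 hR3
    (rem_of hLA hLC hA hC)
    (hBLA α β γ _ A QA LA _ C QC LC _ U1 U2 U3 hA hC hbal.1) hA.low
  obtain ⟨Pb', pb1, pb2, pb3, pb4⟩ := hS β γ α κ n m B QB LB (oi (B \ P.image eB) U2 U3) C QC A QA LA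
    (io (A \ P.image eA) U1 U2) U2 W2 U3 W3 U1 W1 hκ0 hκ hn hm nβ nγ nα hW3 hW1 hR2 hR3 hR1
    (rem_of hLB hLA hB hA)
    (hBLA β γ α _ B QB LB _ A QA LA _ U2 U3 U1 hB hA hbal.2.1) hB.low
  obtain ⟨Pc', pc1, pc2, pc3, pc4⟩ := hS γ α β κ n m C QC LC (oi (C \ P.image eC) U3 U1) A QA B QB LB
    (io (B \ P.image eB) U2 U3) U3 W3 U1 W1 U2 W2 hκ0 hκ hn hm nγ nα nβ hW1 hW2 hR3 hR1 hR2
    (rem_of hLC hLB hC hB)
    (hBLA γ α β _ C QC LC _ B QB LB _ U3 U1 U2 hC hB hbal.2.2) hC.low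
  obtain ⟨Pb, qb1, qb2, qb3, qb4⟩ := hROT α β γ _ _ _ Pb' pb1
  obtain ⟨Pc1, rc1, rc2, rc3, rc4⟩ := hROT β γ α _ _ _ Pc' pc1
  obtain ⟨Pc, qc1, qc2, qc3, qc4⟩ := hROT α β γ _ _ _ Pc1 rc1
  rw [pb3] at qb2
  rw [pb2] at qb3
  rw [rc4] at qc2
  rw [rc2, pc3] at qc3
  rw [rc3, pc2] at qc4
  refine ⟨Pa ∪ Pb ∪ Pc, Pc.image eA, Pa.image eB, Pb.image eC, ?_, ?_, ?_, ?_, ?_, ?_, ?_, ?_, ?_,
    ?_⟩
  · refine hUN3 α β γ (A \ P.image eA) _ _ _ (B \ P.image eB) _ _ _ (C \ P.image eC) _ _ _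
      Pa Pb Pc pa1 qb1 qc1 ⟨oi_sub _ _ _, io_sub _ _ _, hb_sub hA⟩
      ⟨hb_sub hB, oi_sub _ _ _, io_sub _ _ _⟩ ⟨io_sub _ _ _, hb_sub hC, oi_sub _ _ _⟩
      ⟨dis_oi_io _ _ _ _, dis_oi_hb _ _ _ _ _ _, dis_io_hb _ _ _ _ _ _⟩
      ⟨(dis_oi_hb _ _ _ _ _ _).symm, (dis_io_hb _ _ _ _ _ _).symm, dis_oi_io _ _ _ _⟩
      ⟨dis_io_hb _ _ _ _ _ _, (dis_oi_io _ _ _ _).symm, (dis_oi_hb _ _ _ _ _ _).symm⟩
  · intro e he
    rw [mem_image] at he
    obtain ⟨T, hT, rfl⟩ := he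
    exact qc1.sA T hT
  · intro e he
    rw [mem_image] at he
    obtain ⟨T, hT, rfl⟩ := he
    exact pa1.sB T hT
  · intro e he
    rw [mem_image] at he
    obtain ⟨T, hT, rfl⟩ := he
    exact qb1.sC T hT
  · rw [qc2]
    exact pc4
  · exact pa4
  · rw [qb4]
    exact pb4
  · rw [image_union, image_union, pa2, qb2]
  · rw [image_union, image_union, qb3, qc3]
    ext e
    simp only [mem_union]
    tauto
  · rw [image_union, image_union, pa3, qc4]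
    ext e
    simp only [mem_union]
    tauto

end Pool.Agent.Helper40.IAC
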